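import Mathlib

set_option autoImplicit false

namespace Pool.Agent.Results.MP_c6dab2_ag.SpaceCurve

open IsLocalRing MvPolynomial

section Defs

variable {R : Type} [CommRing R]

/-- The `m`-th symbolic power of `I` : the intersection, over all minimal primes `P` of `I`, of the
contractions to `R` of `I ^ m` extended to the localization of `R` at `P`. -/
noncomputable def symbolicPower (I : Ideal R) (m : ℕ) : Ideal R :=
  ⨅ P : PrimeSpectrum R, ⨅ _ : P.asIdeal ∈ I.minimalPrimes,
    ((I ^ m).map (algebraMap R (Localization.AtPrime P.asIdeal))).comap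
      (algebraMap R (Localization.AtPrime P.asIdeal))

/-- The big height of `I` : the largest height of a minimal prime of `I`. -/
noncomputable def bigHeight (I : Ideal R) : ℕ∞ := ⨆ P ∈ I.minimalPrimes, P.height

end Defs

section General

variable {R : Type} [CommRing R] {I : Ideal R}

theorem bigHeight_of_isPrime (hI : I.IsPrime) : bigHeight I = I.height := by
  unfold bigHeight
  rw [Ideal.minimalPrimes_eq_subsingleton_self]
  simp

/-- An element multiplied into `I ^ m` by an element outside of the prime ideal `I` lies in the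
symbolic power. -/
theorem mem_symbolicPower (hI : I.IsPrime) {m : ℕ} {s f : R} (hs : s ∉ I) (h : s * f ∈ I ^ m) :
    f ∈ symbolicPower I m := by
  unfold symbolicPower
  simp only [Submodule.mem_iInf]
  intro P hP
  rw [Ideal.minimalPrimes_eq_subsingleton_self] at hP
  have hP' : P.asIdeal = I := hP
  rw [Ideal.mem_comap]
  have h1 := Ideal.mem_map_of_mem (algebraMap R (Localization.AtPrime P.asIdeal)) h
  rw [map_mul] at h1
  have hu : IsUnit (algebraMap R (Localization.AtPrime P.asIdeal) s) :=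
    IsLocalization.map_units (Localization.AtPrime P.asIdeal)
      (⟨s, fun hs' => hs (by rw [← hP']; exact hs')⟩ : P.asIdeal.primeCompl)
  exact (Ideal.unit_mul_mem_iff_mem _ hu).1 h1

end General

section Ring

variable (k : Type) [Field k]

/-- The polynomial ring in three variables. -/
abbrev A : Type := MvPolynomial (Fin 3) k

/-- The ideal of the origin. -/
noncomputable def m₀ : Ideal (A k) := RingHom.ker (constantCoeff : A k →+* k)

instance : (m₀ k).IsPrime := RingHom.ker_isPrime _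

/-- The local ring of affine three-space at the origin. -/
abbrev Loc : Type := Localization.AtPrime (m₀ k)

/-- The parametrization of the curve. -/
noncomputable def φ : A k →ₐ[k] Polynomial k :=
  aeval ![Polynomial.X ^ 4, Polynomial.X ^ 5, Polynomial.X ^ 11]

/-- The ideal of the curve in the polynomial ring. -/
noncomputable def P₀ : Ideal (A k) := RingHom.ker (φ k)

instance : (P₀ k).IsPrime := RingHom.ker_isPrime _

/-- The parametrization of a surface containing the curve. -/
noncomputable def ψ : A k →ₐ[k] MvPolynomial (Fin 2) k :=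
  aeval ![X 0 ^ 3, X 0 * X 1, X 1 ^ 3]

/-- The ideal of the surface. -/
noncomputable def Q₀ : Ideal (A k) := RingHom.ker (ψ k)

instance : (Q₀ k).IsPrime := RingHom.ker_isPrime _

variable {k}

theorem mem_P₀ {f : A k} : f ∈ P₀ k ↔ φ k f = 0 := RingHom.mem_ker

theorem mem_Q₀ {f : A k} : f ∈ Q₀ k ↔ ψ k f = 0 := RingHom.mem_ker

theorem mem_m₀ {f : A k} : f ∈ m₀ k ↔ constantCoeff f = 0 := RingHom.mem_ker

theorem P₀_le : P₀ k ≤ m₀ k := by
  intro f hf
  rw [mem_P₀] at hf
  rw [mem_m₀]
  have h : (Polynomial.evalRingHom (0 : k)).comp (φ k : A k →+* Polynomial k) =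
      constantCoeff := by
    apply MvPolynomial.ringHom_ext
    · intro r
      simp [φ]
    · intro i
      fin_cases i <;> simp [φ]
  rw [← h, RingHom.comp_apply]
  have : (φ k : A k →+* Polynomial k) f = 0 := hf
  rw [this, map_zero]

theorem Q₀_le : Q₀ k ≤ P₀ k := by
  intro f hf
  rw [mem_Q₀] at hf
  rw [mem_P₀]
  have h : (aeval ![Polynomial.X ^ 4, Polynomial.X ^ 11] : MvPolynomial (Fin 2) k →ₐ[k] _).comp (ψ k)
      = (Polynomial.expand k 3).comp (φ k) := by
    apply MvPolynomial.algHom_ext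
    intro i
    fin_cases i <;> simp [φ, ψ] <;> ring
  have h1 := congrArg (fun g => g f) h
  simp only [AlgHom.comp_apply] at h1
  rw [hf, map_zero] at h1
  exact (Polynomial.expand_eq_zero (by norm_num)).1 h1.symm

/-- Restriction to the third coordinate axis. -/
noncomputable def θ : A k →ₐ[k] Polynomial k := aeval ![0, 0, Polynomial.X]

theorem coeff_θ (f : A k) : (θ f).coeff 0 = constantCoeff f := by
  have h : (Polynomial.constantCoeff).comp ((θ : A k →ₐ[k] Polynomial k) : A k →+* Polynomial k) =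
      constantCoeff := by
    apply MvPolynomial.ringHom_ext
    · intro r
      simp [θ]
    · intro i
      fin_cases i <;> simp [θ]
  rw [← h, RingHom.comp_apply]
  rfl

theorem θ_mem {N : ℕ} {f : A k} (hf : f ∈ m₀ k ^ N) : Polynomial.X ^ N ∣ θ f := by
  have h1 : Ideal.map (θ : A k →ₐ[k] Polynomial k) (m₀ k) ≤ Ideal.span {Polynomial.X} := by
    rw [Ideal.map_le_iff_le_comap]
    intro a ha
    rw [mem_m₀, ← coeff_θ] at ha
    rw [Ideal.mem_comap, Ideal.mem_span_singleton]
    exact Polynomial.X_dvd_iff.2 ha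
  have h2 : θ f ∈ Ideal.map (θ : A k →ₐ[k] Polynomial k) (m₀ k) ^ N := by
    rw [← Ideal.map_pow]
    exact Ideal.mem_map_of_mem _ hf
  have h3 := Ideal.pow_right_mono h1 N h2
  rw [Ideal.span_singleton_pow, Ideal.mem_span_singleton] at h3
  exact h3

theorem max_eq : maximalIdeal (Loc k) = (m₀ k).map (algebraMap (A k) (Loc k)) :=
  (Localization.AtPrime.map_eq_maximalIdeal (I := m₀ k)).symm

theorem algebraMap_inj : Function.Injective (algebraMap (A k) (Loc k)) :=
  IsLocalization.injective (Loc k) (m₀ k).primeCompl_le_nonZeroDivisors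

/-- Elements which restrict to a unit multiple of `T ^ n` on the third axis have order at most
`n`. -/
theorem not_mem_max_pow {f : A k} {n N : ℕ} {c : k} (hc : c ≠ 0) (hf : θ f = Polynomial.C c *
    Polynomial.X ^ n) (hn : n < N) : algebraMap (A k) (Loc k) f ∉ maximalIdeal (Loc k) ^ N := by
  intro h
  rw [max_eq, ← Ideal.map_pow, IsLocalization.mem_map_algebraMap_iff (m₀ k).primeCompl] at h
  obtain ⟨⟨a, s⟩, h⟩ := h
  simp only at h
  rw [← map_mul] at h
  have h1 : f * s = a := algebraMap_inj h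
  have h2 := θ_mem a.2
  rw [← h1, map_mul, hf] at h2
  obtain ⟨j, rfl⟩ : ∃ j, N = n + (j + 1) := ⟨N - n - 1, by omega⟩
  rw [pow_add, mul_assoc, mul_left_comm] at h2
  have h3 := (mul_dvd_mul_iff_left (pow_ne_zero n Polynomial.X_ne_zero)).1 h2
  have h4 : Polynomial.X ∣ Polynomial.C c * θ (s : A k) := (dvd_pow_self _ (Nat.succ_ne_zero j)).trans h3
  rw [Polynomial.X_dvd_iff, Polynomial.coeff_C_mul, coeff_θ] at h4
  exact s.2 (mem_m₀.2 ((mul_eq_zero.1 h4).resolve_left hc))

theorem m₀_eq : m₀ k = idealOfVars (Fin 3) k := by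
  ext f
  rw [mem_m₀, ← pow_one (idealOfVars (Fin 3) k), mem_pow_idealOfVars_iff']
  constructor
  · intro h d hd
    have : d = 0 := by
      rw [← Finsupp.degree_eq_zero_iff]; omega
    rw [this]; exact h
  · intro h
    exact h 0 (by simp)

/-- The weight of a monomial. -/
def wt (d : Fin 3 →₀ ℕ) : ℕ := 4 * d 0 + 5 * d 1 + 11 * d 2

theorem coeff_φ (f : A k) (n : ℕ) :
    (φ k f).coeff n = ∑ d ∈ f.support, if wt d = n then f.coeff d else 0 := by
  have h : φ k f = ∑ d ∈ f.support, Polynomial.C (f.coeff d) * Polynomial.X ^ wt d := by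
    unfold φ
    rw [aeval_def, eval₂_eq']
    apply Finset.sum_congr rfl
    intro d _
    rw [Fin.prod_univ_three]
    simp only [Matrix.cons_val_zero, Matrix.cons_val_one, Matrix.cons_val, ← pow_mul, ← pow_add]
    rfl
  rw [h, Polynomial.finsetSum_coeff]
  apply Finset.sum_congr rfl
  intro d _
  rw [Polynomial.coeff_C_mul, Polynomial.coeff_X_pow]
  by_cases h : wt d = n
  · rw [if_pos h, if_pos h.symm, mul_one]
  · rw [if_neg h, if_neg (fun h' => h h'.symm), mul_zero]

theorem wt_uniq {d e : Fin 3 →₀ ℕ} (hd : Finsupp.degree d < 2) (h : wt e = wt d) : e = d := by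
  rw [Finsupp.degree_eq_sum, Fin.sum_univ_three] at hd
  unfold wt at h
  have key : ∀ a b c a' b' c' : ℕ, a + b + c < 2 → 4 * a' + 5 * b' + 11 * c' =
      4 * a + 5 * b + 11 * c → a' = a ∧ b' = b ∧ c' = c := by
    intro a b c a' b' c' h1 h2
    have ha : a ≤ 1 := by omega
    have hb : b ≤ 1 := by omega
    have hc : c ≤ 1 := by omega
    have hc' : c' ≤ 1 := by omega
    have hb' : b' ≤ 2 := by omega
    interval_cases a <;> interval_cases b <;> interval_cases c <;> interval_cases c' <;>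
      interval_cases b' <;> omega
  obtain ⟨h1, h2, h3⟩ := key _ _ _ _ _ _ hd h
  ext i
  fin_cases i
  · exact h1
  · exact h2
  · exact h3

theorem P₀_le_sq : P₀ k ≤ m₀ k ^ 2 := by
  intro f hf
  rw [m₀_eq, mem_pow_idealOfVars_iff']
  intro d hd
  rw [mem_P₀] at hf
  have h := coeff_φ f (wt d)
  rw [hf, Polynomial.coeff_zero] at h
  by_cases hds : d ∈ f.support
  · rw [Finset.sum_eq_single d] at h
    · rw [if_pos rfl] at h
      exact h.symm
    · intro e _ hne
      rw [if_neg]
      intro he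
      exact hne (wt_uniq hd he)
    · intro h'
      exact absurd hds h'
  · rwa [mem_support_iff, not_not] at hds

theorem enat_aux {q p m : ℕ∞} (h1 : 1 ≤ q) (h2 : q + 1 ≤ p) (h3 : p + 1 ≤ m) (h4 : m ≤ 3) :
    p = 2 ∧ m = 3 := by
  have hm : m ≠ ⊤ := fun h => by rw [h] at h4; simp at h4
  have hp : p ≠ ⊤ := fun h => by rw [h] at h3; exact hm (by simpa using h3)
  have hq : q ≠ ⊤ := fun h => by rw [h] at h2; exact hp (by simpa using h2)
  lift p to ℕ using hp
  lift m to ℕ using hm
  lift q to ℕ using hq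
  have h1' : 1 ≤ q := by exact_mod_cast h1
  have h2' : q + 1 ≤ p := by exact_mod_cast h2
  have h3' : p + 1 ≤ m := by exact_mod_cast h3
  have h4' : m ≤ 3 := by exact_mod_cast h4
  have hp : p = 2 := by omega
  have hm : m = 3 := by omega
  subst hp hm
  exact ⟨rfl, rfl⟩

theorem heights : (P₀ k).height = 2 ∧ (m₀ k).height = 3 := by
  have h1 : (⊥ : Ideal (A k)).height + 1 ≤ (Q₀ k).height := by
    apply Ideal.height_add_one_le_of_lt_of_isPrime
    rw [bot_lt_iff_ne_bot, Submodule.ne_bot_iff]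
    refine ⟨X 0 * X 2 - X 1 ^ 3, ?_, ?_⟩
    · rw [mem_Q₀]
      simp [ψ]
      ring
    · intro h
      have h2 := congrArg (aeval ![(1 : k), 0, 1]) h
      simp at h2
  have h2 : (Q₀ k).height + 1 ≤ (P₀ k).height := by
    apply Ideal.height_add_one_le_of_lt_of_isPrime
    refine lt_of_le_of_ne Q₀_le ?_
    intro h
    have h3 : (X 0 ^ 4 - X 1 * X 2 : A k) ∈ Q₀ k := by
      rw [h, mem_P₀]
      simp [φ]
      ring
    rw [mem_Q₀] at h3
    have h4 := congrArg (aeval ![(1 : k), 0]) h3
    simp [ψ] at h4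
  have h3 : (P₀ k).height + 1 ≤ (m₀ k).height := by
    apply Ideal.height_add_one_le_of_lt_of_isPrime
    refine lt_of_le_of_ne P₀_le ?_
    intro h
    have h5 : (X 0 : A k) ∈ P₀ k := by
      rw [h, mem_m₀]
      simp
    rw [mem_P₀] at h5
    simp [φ] at h5
  have h4 : (m₀ k).height ≤ 3 := by
    have h5 : ((m₀ k).height : WithBot ℕ∞) ≤ ringKrullDim (A k) :=
      Ideal.height_le_ringKrullDim_of_isPrime
    rw [MvPolynomial.ringKrullDim_of_isNoetherianRing, ringKrullDim_eq_zero_of_field] at h5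
    have h6 : ((m₀ k).height : WithBot ℕ∞) ≤ ((3 : ℕ∞) : WithBot ℕ∞) := by
      refine h5.trans (le_of_eq ?_)
      norm_num
    exact_mod_cast h6
  rw [Ideal.height_bot, zero_add] at h1
  exact enat_aux h1 h2 h3 h4

theorem disj : Disjoint ((m₀ k).primeCompl : Set (A k)) (P₀ k : Set (A k)) := by
  rw [Set.disjoint_left]
  intro f hf hf'
  exact hf (P₀_le hf')

variable (k) in
/-- The ideal of the curve in the local ring. -/
noncomputable def P : Ideal (Loc k) := (P₀ k).map (algebraMap (A k) (Loc k))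

instance P_prime : (P k).IsPrime :=
  IsLocalization.isPrime_of_isPrime_disjoint (m₀ k).primeCompl (Loc k) (P₀ k) inferInstance disj

theorem P_comap {f : A k} : algebraMap (A k) (Loc k) f ∈ P k ↔ f ∈ P₀ k := by
  have := IsLocalization.under_map_of_isPrime_disjoint (m₀ k).primeCompl (Loc k)
    (I := P₀ k) inferInstance disj
  unfold P
  rw [← Ideal.mem_comap]
  exact Ideal.ext_iff.1 this f

theorem P_height : (P k).height = 2 := by
  unfold P
  rw [IsLocalization.height_map_of_disjoint (m₀ k).primeCompl (P₀ k) disj]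
  exact heights.1

theorem dim_Loc : ringKrullDim (Loc k) = 3 := by
  rw [IsLocalization.AtPrime.ringKrullDim_eq_height (m₀ k), heights.2]
  rfl

theorem P_le_sq : P k ≤ maximalIdeal (Loc k) ^ 2 := by
  rw [max_eq, ← Ideal.map_pow]
  exact Ideal.map_mono P₀_le_sq

/-! The polynomials. -/

variable (k) in
/-- first element, in the ideal -/
noncomputable def fA : A k := X 0 ^ 3 * X 1 ^ 2 - X 2 ^ 2

variable (k) in
/-- second element, in the ideal -/
noncomputable def fB : A k := X 0 ^ 4 - X 1 * X 2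

variable (k) in
/-- third element, in the ideal -/
noncomputable def fC : A k := X 0 * X 2 - X 1 ^ 3

variable (k) in
/-- an element of the second symbolic power -/
noncomputable def fD : A k :=
  3 * X 0 ^ 3 * X 1 ^ 2 * X 2 - X 0 ^ 2 * X 1 ^ 5 - X 2 ^ 3 - X 0 ^ 7 * X 1

variable (k) in
/-- an element of the third symbolic power -/
noncomputable def fG : A k :=
  6 * X 0 ^ 3 * X 1 ^ 2 * X 2 ^ 2 - 4 * X 0 ^ 2 * X 1 ^ 5 * X 2 - X 2 ^ 4 - 4 * X 0 ^ 7 * X 1 * X 2
    + X 0 * X 1 ^ 8 + X 0 ^ 6 * X 1 ^ 4 + X 0 ^ 11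

theorem eqD : X 0 * fD k = fA k * fC k - X 1 * fB k ^ 2 := by
  unfold fD fA fB fC; ring

theorem eqG : X 0 * fG k = fC k * fD k + fB k ^ 3 := by
  unfold fG fD fB fC; ring

theorem memA : fA k ∈ P₀ k := by
  rw [mem_P₀]; simp [φ, fA]; ring

theorem memB : fB k ∈ P₀ k := by
  rw [mem_P₀]; simp [φ, fB]; ring

theorem memC : fC k ∈ P₀ k := by
  rw [mem_P₀]; simp [φ, fC]; ring

theorem memD : X 0 * fD k ∈ P₀ k ^ 2 := by
  rw [eqD, sq (P₀ k), sq (fB k)]
  exact sub_mem (Ideal.mul_mem_mul memA memC)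
    (Ideal.mul_mem_left _ _ (Ideal.mul_mem_mul memB memB))

theorem memG : X 0 ^ 2 * fG k ∈ P₀ k ^ 3 := by
  have h : X 0 ^ 2 * fG k = fC k * (X 0 * fD k) + X 0 * fB k ^ 3 := by
    linear_combination X 0 * (eqG (k := k))
  rw [h]
  refine add_mem ?_ (Ideal.mul_mem_left _ _ (Ideal.pow_mem_pow memB 3))
  rw [pow_succ' (P₀ k)]
  exact Ideal.mul_mem_mul memC memD

theorem X0_not_mem : (X 0 : A k) ∉ P₀ k := by
  intro h
  rw [mem_P₀] at h
  simp [φ] at h

theorem θA : θ (fA k) = Polynomial.C (-1) * Polynomial.X ^ 2 := by simp [θ, fA]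
theorem θD : θ (fD k) = Polynomial.C (-1) * Polynomial.X ^ 3 := by simp [θ, fD]
theorem θG : θ (fG k) = Polynomial.C (-1) * Polynomial.X ^ 4 := by simp [θ, fG]

/-- For every `r ≥ 3` there is an element of symbolic order `2 r` and ordinary order less than
`3 r`. -/
theorem exists_elt (r : ℕ) (hr : 3 ≤ r) : ∃ (f : A k) (n N : ℕ) (c : k),
    X 0 ^ N * f ∈ P₀ k ^ (2 * r) ∧ c ≠ 0 ∧ θ f = Polynomial.C c * Polynomial.X ^ n ∧
      n < 3 * r := by
  obtain ⟨q, j, hj, hq⟩ : ∃ q j, j < 3 ∧ 2 * r = 3 * q + j := ⟨2 * r / 3, 2 * r % 3,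
    Nat.mod_lt _ (by norm_num), by omega⟩
  have hGq : (X 0 ^ 2 * fG k) ^ q ∈ P₀ k ^ (3 * q) := by
    rw [pow_mul]; exact Ideal.pow_mem_pow memG q
  have hc : (-1 : k) ^ q ≠ 0 := pow_ne_zero _ (by simp)
  interval_cases j
  · refine ⟨fG k ^ q, 4 * q, 2 * q, (-1) ^ q, ?_, hc, ?_, by omega⟩
    · rw [hq, add_zero]
      have : X 0 ^ (2 * q) * fG k ^ q = (X 0 ^ 2 * fG k) ^ q := by rw [mul_pow, pow_mul]
      rw [this]; exact hGq
    · rw [map_pow, θG, mul_pow, ← map_pow, ← pow_mul]
  · refine ⟨fG k ^ q * fA k, 4 * q + 2, 2 * q, (-1) ^ q * (-1), ?_, ?_, ?_, by omega⟩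
    · rw [hq, pow_add, pow_one]
      have : X 0 ^ (2 * q) * (fG k ^ q * fA k) = (X 0 ^ 2 * fG k) ^ q * fA k := by
        rw [mul_pow, pow_mul, mul_assoc]
      rw [this]; exact Ideal.mul_mem_mul hGq memA
    · exact mul_ne_zero hc (by simp)
    · rw [map_mul, map_pow, θG, θA, mul_pow, ← map_pow, ← pow_mul, map_mul]
      ring
  · refine ⟨fG k ^ q * fD k, 4 * q + 3, 2 * q + 1, (-1) ^ q * (-1), ?_, ?_, ?_, by omega⟩
    · rw [hq, pow_add]
      have : X 0 ^ (2 * q + 1) * (fG k ^ q * fD k) = (X 0 ^ 2 * fG k) ^ q * (X 0 * fD k) := by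
        rw [mul_pow, pow_add, pow_mul]; ring
      rw [this]; exact Ideal.mul_mem_mul hGq memD
    · exact mul_ne_zero hc (by simp)
    · rw [map_mul, map_pow, θG, θD, mul_pow, ← map_pow, ← pow_mul, map_mul]
      ring

theorem main (r : ℕ) (hr : 3 ≤ r) :
    ¬ (symbolicPower (P k) (r * 2) ≤ maximalIdeal (Loc k) ^ (r * 2 - r) * P k ^ r) := by
  intro hcon
  obtain ⟨f, n, N, c, h1, hc, h2, h3⟩ := exists_elt (k := k) r hr
  have h4 : algebraMap (A k) (Loc k) f ∈ symbolicPower (P k) (r * 2) := by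
    apply mem_symbolicPower P_prime (s := algebraMap (A k) (Loc k) (X 0 ^ N))
    · rw [P_comap]
      intro h
      exact X0_not_mem ((inferInstance : (P₀ k).IsPrime).mem_of_pow_mem _ h)
    · rw [← map_mul, mul_comm r]
      unfold P
      rw [← Ideal.map_pow]
      exact Ideal.mem_map_of_mem _ h1
  have h5 := hcon h4
  have h6 : maximalIdeal (Loc k) ^ (r * 2 - r) * P k ^ r ≤ maximalIdeal (Loc k) ^ (3 * r) := by
    calc maximalIdeal (Loc k) ^ (r * 2 - r) * P k ^ r
        ≤ maximalIdeal (Loc k) ^ (r * 2 - r) * (maximalIdeal (Loc k) ^ 2) ^ r :=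
          Ideal.mul_mono_right (Ideal.pow_right_mono P_le_sq r)
      _ = maximalIdeal (Loc k) ^ (3 * r) := by
          rw [← pow_mul, ← pow_add]
          congr 1
          omega
  exact not_mem_max_pow hc h2 h3 (h6 h5)

end Ring

/-- For every field `k` there are a three-dimensional regular local ring `R` containing `k` and a
prime ideal `P` of `R` of height (and big height) `e = 2` such that for every `r ≥ 3` the symbolic
power `P ^ (r e)` is not contained in `𝔪 ^ (r e - r) P ^ r` . -/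
theorem result (k : Type) [Field k] :
    ∃ (R : Type) (_ : CommRing R) (_ : Algebra k R) (_ : IsRegularLocalRing R) (P : Ideal R),
      ringKrullDim R = 3 ∧ P.IsPrime ∧ P ≠ ⊥ ∧ bigHeight P = 2 ∧
        ∀ r : ℕ, 3 ≤ r →
          ¬ (symbolicPower P (r * 2) ≤ maximalIdeal R ^ (r * 2 - r) * P ^ r) := by
  refine ⟨Loc k, inferInstance, inferInstance, inferInstance, P k, dim_Loc, P_prime, ?_, ?_,
    fun r hr => main r hr⟩
  · intro h
    have := P_height (k := k)
    rw [h, Ideal.height_bot] at this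
    exact absurd this (by norm_num)
  · rw [bigHeight_of_isPrime P_prime, P_height]

end Pool.Agent.Results.MP_c6dab2_ag.SpaceCurve
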